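import Pool.Agent.helper88.HT.Spec

/-!
# Project HT (MP_069684_lc), row HC
-/

set_option autoImplicit false

namespace Pool.Agent.helper88.HT

open Finset

theorem HC_fiber {n k : ℕ} (T : Finset (Fin n)) (hT : T.Nonempty) :
    (Finset.univ.filter fun H : Fin n → Gk k => ∑ i ∈ T, H i = 0).card * 2 ^ (k + 1) =
      Fintype.card (Fin n → Gk k) := by
  obtain ⟨i0, hi0⟩ := hT
  have h1 : ∀ v : Gk k, (Finset.univ.filter fun H : Fin n → Gk k => ∑ i ∈ T, H i = v).card =
      (Finset.univ.filter fun H : Fin n → Gk k => ∑ i ∈ T, H i = 0).card := by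
    intro v
    symm
    refine Finset.card_equiv (Equiv.addRight (Pi.single i0 v : Fin n → Gk k)) fun H => ?_
    simp only [Finset.mem_filter, Finset.mem_univ, true_and, Equiv.coe_addRight]
    have h2 : ∑ i ∈ T, (H + (Pi.single i0 v : Fin n → Gk k)) i = ∑ i ∈ T, H i + v := by
      simp only [Pi.add_apply]
      rw [Finset.sum_add_distrib]
      congr 1
      rw [Finset.sum_eq_single_of_mem i0 hi0 (fun i _ hne => by
        rw [Pi.single_apply, if_neg hne]), Pi.single_eq_same]
    rw [h2]
    constructor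
    · intro h
      rw [h, zero_add]
    · intro h
      have h3 : ∑ i ∈ T, H i + v = 0 + v := by rw [h, zero_add]
      exact add_right_cancel h3
  have h2 : Fintype.card (Fin n → Gk k) =
      ∑ v : Gk k, (Finset.univ.filter fun H : Fin n → Gk k => ∑ i ∈ T, H i = v).card := by
    rw [← Finset.card_univ]
    exact Finset.card_eq_sum_card_fiberwise (f := fun H : Fin n → Gk k => ∑ i ∈ T, H i)
      (fun _ _ => Finset.mem_coe.2 (Finset.mem_univ _))
  rw [h2, Finset.sum_congr rfl fun v _ => h1 v, Finset.sum_const, smul_eq_mul, mul_comm]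
  congr 1
  rw [Finset.card_univ]
  simp [Gk, ZMod.card]

theorem HC : HC_stmt := by
  intro n k S _ hS
  have h1 : (Finset.univ.filter fun H : Fin n → Gk k => ¬ Good H S) ⊆
      (S.powerset.filter fun T => T.Nonempty).biUnion fun T =>
        Finset.univ.filter fun H : Fin n → Gk k => ∑ i ∈ T, H i = 0 := by
    intro H hH
    rw [Finset.mem_filter] at hH
    have h2 := hH.2
    unfold Good at h2
    push Not at h2
    obtain ⟨T, hT, hne, h0⟩ := h2
    rw [Finset.mem_biUnion]
    refine ⟨T, ?_, ?_⟩
    · rw [Finset.mem_filter, Finset.mem_powerset]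
      exact ⟨hT, hne⟩
    · rw [Finset.mem_filter]
      exact ⟨Finset.mem_univ _, h0⟩
  have h2 := (Finset.card_le_card h1).trans Finset.card_biUnion_le
  have h3 : (∑ T ∈ S.powerset.filter (fun T => T.Nonempty),
      (Finset.univ.filter fun H : Fin n → Gk k => ∑ i ∈ T, H i = 0).card) * 2 ^ (k + 1) ≤
      2 ^ k * Fintype.card (Fin n → Gk k) := by
    rw [Finset.sum_mul]
    have h4 : ∑ T ∈ S.powerset.filter (fun T => T.Nonempty),
        (Finset.univ.filter fun H : Fin n → Gk k => ∑ i ∈ T, H i = 0).card * 2 ^ (k + 1) =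
        ∑ T ∈ S.powerset.filter (fun T => T.Nonempty), Fintype.card (Fin n → Gk k) :=
      Finset.sum_congr rfl fun T hT => HC_fiber T (Finset.mem_filter.1 hT).2
    rw [h4, Finset.sum_const, smul_eq_mul]
    apply Nat.mul_le_mul_right
    calc (S.powerset.filter fun T => T.Nonempty).card ≤ S.powerset.card :=
          Finset.card_filter_le _ _
      _ = 2 ^ S.card := Finset.card_powerset S
      _ ≤ 2 ^ k := Nat.pow_le_pow_right (by norm_num) hS
  have h5 : (Finset.univ.filter fun H : Fin n → Gk k => ¬ Good H S).card * 2 ^ (k + 1) ≤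
      2 ^ k * Fintype.card (Fin n → Gk k) := (Nat.mul_le_mul_right _ h2).trans h3
  have h6 : 2 ^ k * (2 * (Finset.univ.filter fun H : Fin n → Gk k => ¬ Good H S).card) ≤
      2 ^ k * Fintype.card (Fin n → Gk k) := by
    calc 2 ^ k * (2 * (Finset.univ.filter fun H : Fin n → Gk k => ¬ Good H S).card)
        = (Finset.univ.filter fun H : Fin n → Gk k => ¬ Good H S).card * 2 ^ (k + 1) := by
          rw [pow_succ]
          ring
      _ ≤ _ := h5
  exact Nat.le_of_mul_le_mul_left h6 (by positivity)

end Pool.Agent.helper88.HT
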